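import Pool.Agent.Run7.h164.LF

set_option autoImplicit false

/-!
A Verra fourfold whose Kuznetsov component is equivalent to the derived category of a K3 surface
with Néron-Severi discriminant not divisible by four is rational.
-/

open CategoryTheory Run7.h164.ST

namespace Pool.Agent.Results.MP_a00789_ag.DiscriminantNotDivisibleByFour

universe v u

/-- Let `S` be a set of pairs contained in `{(0,0), (1,0), (0,1), (1,1), (2,1), (1,2)}`; for the
whole set, `Ku V.Y S` is the Kuznetsov component of K3 type of the Verra fourfold `V.Y`. Let `𝒟` be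
a category with the numerical structure of the derived category of a K3 surface whose Néron-Severi
lattice has Gram matrix `G`, and let `Φ` be an equivalence from `Ku V.Y S` to `𝒟`, linear over the
complex numbers and commuting with the shift on objects. If the determinant of `G` is not divisible
by four, or more generally if there are no even triples of Mukai vectors, then `V.Y` is rational. -/
theorem result (S : Set (ℕ × ℕ)) (hS : S ⊆ {(0, 0), (1, 0), (0, 1), (1, 1), (2, 1), (1, 2)})
    (V : Verra) {𝒟 : Type u} [Category.{v} 𝒟] [Preadditive 𝒟] [Linear ℂ 𝒟] [HasShift 𝒟 ℤ] {r : ℕ}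
    (G : Matrix (Fin r) (Fin r) ℤ) (hD : K3Cat 𝒟 G)
    (Φ : (Ku V.Y S).FullSubcategory ⥤ 𝒟) [Φ.IsEquivalence] [Φ.Additive] [Φ.Linear ℂ]
    (hΦ : CommShiftTo Φ) (h : (¬ ∃ x y l, EvenVectors G x y l) ∨ ¬ (4 : ℤ) ∣ G.det) :
    Rational V.Y :=
  Run7.h164.rational_of_k3 S hS V G hD Φ hΦ h

end Pool.Agent.Results.MP_a00789_ag.DiscriminantNotDivisibleByFour
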